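import Pool.Agent.L5helper14.UnitL.Main

/-!
# `p`-indivisibility of `L(χ, 0)`: the exponent `2 / 3`

For all large primes `q` and all primes `p` dividing neither `q` nor `q - 1` there are at least `q^(2/3) / (128 log q)` odd
characters `χ` modulo `q` for which `L(χ, 0)` is a unit at a given place above `p`.

The number of the odd characters with this property is at least the rank of the multiplication table `(a b mod q)` over
a field of characteristic `p` minus one. Differences of columns of this table are, up to a factor `q` and a fixed column, the
indicator functions of the denominators `a` of the fractions in the cells `(x / q, (x + 1) / q]`, so that the rank is at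
least the number of the integers which are the least denominator in some cell. The integers `(q + u v) / G` with
`0 < u, v < G`, `G` about `q^(1/3)`, have this property, and there are at least `q^(2/3) / (128 log q)` of them.
-/

set_option autoImplicit false

namespace Pool.Agent.Results.MP_53226a_nt.ExponentTwoThirds

theorem result : ∃ Q : ℕ, ∀ p q : ℕ, p.Prime → q.Prime → p ≠ q → ¬ p ∣ q - 1 → Q ≤ q →
    ∀ P : Ideal (integralClosure ℤ ℂ), P.IsMaximal → (p : integralClosure ℤ ℂ) ∈ P →
      (q : ℝ) ^ (2 / 3 : ℝ) / (128 * Real.log q) ≤
        (({χ : DirichletCharacter ℂ q |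
            χ (-1 : ZMod q) = -1 ∧
            ∃ a b : integralClosure ℤ ℂ, a ∉ P ∧ b ∉ P ∧
              (b : ℂ) * (-(1 / (q : ℂ)) *
                ∑ k ∈ Finset.Ico 1 q, (k : ℂ) * χ (k : ZMod q)) = (a : ℂ)}
          : Set (DirichletCharacter ℂ q)).ncard : ℝ) :=
  Pool.Agent.L5helper14.UnitL.main_bound

end Pool.Agent.Results.MP_53226a_nt.ExponentTwoThirds
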